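import Pool.Agent.Q176.OP.KEYb

/-!
# Project OP, job KEY: the height of a multiplier
-/

set_option autoImplicit false

namespace Pool.Agent.Q176.OP

open Pool.Agent.W277.UB Pool.Agent.W277.UG Pool.Agent.W277.UH Finset Polynomial
open Pool.Agent.Y706.CH (bK Crit vo pt)
open Pool.Agent.Q103.OP
open Pool.Agent.Y86.CH (norm_bF_le norm_F_lower bK_ne vm_ne log_vm iter_vm crit_map)

universe u v w

theorem t_KEY (hALM : S_ALM.{u}) : S_KEY.{u, v, w} := by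
  intro d m hd hm
  obtain ⟨C₁, hC, hA⟩ := hALM d m hd hm
  refine ⟨C₁ * ((2 * d + 1) * (2 * (d + 1))), by positivity, ?_⟩
  intro k K _ _ _ _ _ Q p q h H hH Cr hCr X₀ μ hX₀ hμ hper n hn
  have hH0 : 0 ≤ H := (hE_nonneg Q _).trans (hH 0).1
  have hL0 : 0 ≤ ∑ i, ∑ a ∈ range m, hL Q ((bK d p q)^[m * n - a] (Cr i)) X₀ :=
    Finset.sum_nonneg fun i _ => Finset.sum_nonneg fun a _ => hL_nonneg Q _ _
  have hR0 : 0 ≤ C₁ * ((2 * d + 1) * (2 * (d + 1))) * H := by positivity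
  by_cases hl : mlt d p q m X₀ μ = 0
  · rw [hl, hE_zero, mul_zero]
    linarith
  -- the places
  obtain ⟨S, hS⟩ := exists_out Q
    ({mlt d p q m X₀ μ, rs d p q, X₀.1, X₀.2} ∪ (fun i : ℕ => p.coeff i) '' (range (d + 1)) ∪
      (fun i : ℕ => q.coeff i) '' (range (d + 1)) ∪
      (fun x : Fin (2 * d - 2) × ℕ => ((bK d p q)^[m * n - x.2] (Cr x.1)).1) ''
        (((univ : Finset (Fin (2 * d - 2))) ×ˢ range m : Finset (Fin (2 * d - 2) × ℕ)) : Set _) ∪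
      (fun x : Fin (2 * d - 2) × ℕ => ((bK d p q)^[m * n - x.2] (Cr x.1)).2) ''
        (((univ : Finset (Fin (2 * d - 2))) ×ˢ range m : Finset (Fin (2 * d - 2) × ℕ)) : Set _) ∪
      (fun x : Fin (2 * d - 2) × ℕ => wd ((bK d p q)^[m * n - x.2] (Cr x.1)) X₀) ''
        (((univ : Finset (Fin (2 * d - 2))) ×ˢ range m : Finset (Fin (2 * d - 2) × ℕ)) : Set _))
    (by
      refine Set.Finite.union (Set.Finite.union (Set.Finite.union (Set.Finite.union
        (Set.Finite.union (Set.toFinite _) ?_) ?_) ?_) ?_) ?_ <;>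
      exact (Finset.finite_toSet _).image _)
  have s1 : Out Q S (mlt d p q m X₀ μ) := hS _ (by simp)
  have s2 : Out Q S (rs d p q) := hS _ (by simp)
  have s3 : Out Q S X₀.1 := hS _ (by simp)
  have s4 : Out Q S X₀.2 := hS _ (by simp)
  have s5 : ∀ i ∈ range (d + 1), Out Q S (p.coeff i) := fun i hi => hS _
    (Or.inl (Or.inl (Or.inl (Or.inl (Or.inr ⟨i, hi, rfl⟩)))))
  have s6 : ∀ i ∈ range (d + 1), Out Q S (q.coeff i) := fun i hi => hS _
    (Or.inl (Or.inl (Or.inl (Or.inr ⟨i, hi, rfl⟩))))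
  have s7 : ∀ (i : Fin (2 * d - 2)), ∀ a ∈ range m,
      Out Q S ((bK d p q)^[m * n - a] (Cr i)).1 := fun i a ha => hS _
    (Or.inl (Or.inl (Or.inr ⟨(i, a), by simpa using ha, rfl⟩)))
  have s8 : ∀ (i : Fin (2 * d - 2)), ∀ a ∈ range m,
      Out Q S ((bK d p q)^[m * n - a] (Cr i)).2 := fun i a ha => hS _
    (Or.inl (Or.inr ⟨(i, a), by simpa using ha, rfl⟩))
  have s9 : ∀ (i : Fin (2 * d - 2)), ∀ a ∈ range m,
      Out Q S (wd ((bK d p q)^[m * n - a] (Cr i)) X₀) := fun i a ha => hS _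
    (Or.inr ⟨(i, a), by simpa using ha, rfl⟩)
  -- the bound for the coefficients
  set Mv : Q.Pl → ℤ := fun v =>
    ∑ i ∈ range (d + 1), (Q.pole v (p.coeff i) + Q.pole v (q.coeff i)) with hMv
  have hterm : ∀ v, ∀ i ∈ range (d + 1),
      0 ≤ Q.pole v (p.coeff i) + Q.pole v (q.coeff i) := fun v i _ =>
    add_nonneg (PlaceData.pole_nonneg v _) (PlaceData.pole_nonneg v _)
  have hMv0 : ∀ v, 0 ≤ Mv v := fun v => Finset.sum_nonneg (hterm v)
  have hdp : p.natDegree ≤ d := (le_max_left _ _).trans h.2.le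
  have hdq : q.natDegree ≤ d := (le_max_right _ _).trans h.2.le
  have hMp : ∀ v, ∀ i, p.coeff i ≠ 0 → -(Mv v : ℝ) ≤ Q.ord v (p.coeff i) := by
    intro v i hi
    have h1 : i ∈ range (d + 1) := by
      rw [Finset.mem_range]
      have := Polynomial.le_natDegree_of_ne_zero hi
      omega
    have h2 := Finset.single_le_sum (hterm v) h1
    have h3 := PlaceData.G_pole v (p.coeff i) hi
    have h4 := PlaceData.pole_nonneg v (q.coeff i)
    have h5 : -(Mv v) ≤ Q.ord v (p.coeff i) := by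
      simp only [hMv]
      linarith
    exact_mod_cast h5
  have hMq : ∀ v, ∀ i, q.coeff i ≠ 0 → -(Mv v : ℝ) ≤ Q.ord v (q.coeff i) := by
    intro v i hi
    have h1 : i ∈ range (d + 1) := by
      rw [Finset.mem_range]
      have := Polynomial.le_natDegree_of_ne_zero hi
      omega
    have h2 := Finset.single_le_sum (hterm v) h1
    have h3 := PlaceData.G_pole v (q.coeff i) hi
    have h4 := PlaceData.pole_nonneg v (p.coeff i)
    have h5 : -(Mv v) ≤ Q.ord v (q.coeff i) := by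
      simp only [hMv]
      linarith
    exact_mod_cast h5
  have hloc : ∀ v, ((n : ℝ) - 3) * ((max 0 (Q.ord v (mlt d p q m X₀ μ)) : ℤ) : ℝ) ≤
      C₁ * ((Q.ord v (rs d p q) : ℝ) + (2 * d + 1) * (Mv v : ℝ)) +
        ∑ i, ∑ a ∈ range m, (Bv Q v ((bK d p q)^[m * n - a] (Cr i)) X₀ : ℝ) := by
    intro v
    have hM0 : (0 : ℝ) ≤ (Mv v : ℝ) := by exact_mod_cast hMv0 v
    exact local_key hC hd hA Q v h (Mv v : ℝ) hM0 (hMp v) (hMq v) hCr hX₀ hμ hper hn hl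
  -- summation
  have hsum : ∑ v ∈ S, (Q.wt v : ℝ) * (((n : ℝ) - 3) *
      ((max 0 (Q.ord v (mlt d p q m X₀ μ)) : ℤ) : ℝ)) ≤
      ∑ v ∈ S, (Q.wt v : ℝ) * (C₁ * ((Q.ord v (rs d p q) : ℝ) + (2 * d + 1) * (Mv v : ℝ)) +
        ∑ i, ∑ a ∈ range m, (Bv Q v ((bK d p q)^[m * n - a] (Cr i)) X₀ : ℝ)) :=
    Finset.sum_le_sum fun v _ => mul_le_mul_of_nonneg_left (hloc v)
      (by exact_mod_cast Q.wt_nonneg v)
  have e1 : ∑ v ∈ S, (Q.wt v : ℝ) * (((n : ℝ) - 3) *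
      ((max 0 (Q.ord v (mlt d p q m X₀ μ)) : ℤ) : ℝ)) =
      ((n : ℝ) - 3) * hE Q (mlt d p q m X₀ μ) := by
    rw [hE_eq' Q hl s1, Finset.mul_sum]
    exact Finset.sum_congr rfl fun v _ => by ring
  have e2 : ∑ v ∈ S, (Q.wt v : ℝ) * (C₁ * ((Q.ord v (rs d p q) : ℝ) +
        (2 * d + 1) * (Mv v : ℝ)) +
        ∑ i, ∑ a ∈ range m, (Bv Q v ((bK d p q)^[m * n - a] (Cr i)) X₀ : ℝ)) =
      C₁ * ∑ v ∈ S, (Q.wt v : ℝ) * (Q.ord v (rs d p q) : ℝ) +
      C₁ * (2 * d + 1) * ∑ v ∈ S, (Q.wt v : ℝ) * (Mv v : ℝ) +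
      ∑ v ∈ S, (Q.wt v : ℝ) *
        ∑ i, ∑ a ∈ range m, (Bv Q v ((bK d p q)^[m * n - a] (Cr i)) X₀ : ℝ) := by
    rw [Finset.mul_sum, Finset.mul_sum, ← Finset.sum_add_distrib, ← Finset.sum_add_distrib]
    exact Finset.sum_congr rfl fun v _ => by ring
  have e3 : ∑ v ∈ S, (Q.wt v : ℝ) *
        ∑ i, ∑ a ∈ range m, (Bv Q v ((bK d p q)^[m * n - a] (Cr i)) X₀ : ℝ) =
      ∑ i, ∑ a ∈ range m, hL Q ((bK d p q)^[m * n - a] (Cr i)) X₀ := by
    simp only [Finset.mul_sum]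
    rw [Finset.sum_comm]
    refine Finset.sum_congr rfl fun i _ => ?_
    rw [Finset.sum_comm]
    refine Finset.sum_congr rfl fun a ha => ?_
    exact (hL_eq Q (s7 i a ha) (s8 i a ha) s3 s4 (s9 i a ha)).symm
  have e4 : ∑ v ∈ S, (Q.wt v : ℝ) * (Mv v : ℝ) =
      ∑ i ∈ range (d + 1), (hE Q (p.coeff i) + hE Q (q.coeff i)) := by
    simp only [hMv]
    push_cast
    simp only [Finset.mul_sum]
    rw [Finset.sum_comm]
    refine Finset.sum_congr rfl fun i hi => ?_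
    rw [hE_eq Q (s5 i hi), hE_eq Q (s6 i hi), ← Finset.sum_add_distrib]
    exact Finset.sum_congr rfl fun v _ => by ring
  have e5 : ∑ i ∈ range (d + 1), (hE Q (p.coeff i) + hE Q (q.coeff i)) ≤ 2 * (d + 1) * H := by
    have h1 : ∀ i ∈ range (d + 1), hE Q (p.coeff i) + hE Q (q.coeff i) ≤ 2 * H := fun i _ => by
      linarith [(hH i).1, (hH i).2]
    have h2 := Finset.sum_le_card_nsmul _ _ _ h1
    rw [Finset.card_range, nsmul_eq_mul] at h2
    push_cast at h2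
    linarith
  rw [e1, e2, e3, e4, prod_eq Q (rs_ne (by omega) h) s2, mul_zero, zero_add] at hsum
  have h6 := mul_le_mul_of_nonneg_left e5 (by positivity : 0 ≤ C₁ * (2 * (d : ℝ) + 1))
  have e7 : C₁ * ((2 * d + 1) * (2 * (d + 1))) * H = C₁ * (2 * (d : ℝ) + 1) * (2 * (d + 1) * H) := by
    ring
  rw [e7]
  linarith

end Pool.Agent.Q176.OP
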