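import Pool.Agent.Q176.OP.KEYb
import Pool.Agent.Y706.CH.FinD

/-!
# Project OP, job MUL: growth of heights along orbits
-/

set_option autoImplicit false

namespace Pool.Agent.Q176.OP

open Pool.Agent.W277.UB Pool.Agent.W277.UG Pool.Agent.W277.UH Finset Polynomial
open Pool.Agent.Y706.CH (bK Crit vo pt vo_pole)
open Pool.Agent.Q103.OP
open Pool.Agent.Y86.CH (norm_bF_le norm_F_lower bK_ne vm_ne log_vm iter_vm crit_map vo_zero)

universe u v w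

section growth

variable {k : Type v} {K : Type u} [Field k] [Field K] [Algebra k K] (Q : PlaceData.{w} k K)

/-- the poles of the coefficients -/
noncomputable def Mw (d : ℕ) (p q : K[X]) (v : Q.Pl) : ℤ :=
  ∑ i ∈ range (d + 1), (Q.pole v (p.coeff i) + Q.pole v (q.coeff i))

theorem Mw_term (p q : K[X]) (v : Q.Pl) (i : ℕ) :
    0 ≤ Q.pole v (p.coeff i) + Q.pole v (q.coeff i) :=
  add_nonneg (PlaceData.pole_nonneg v _) (PlaceData.pole_nonneg v _)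

theorem Mw_nonneg (d : ℕ) (p q : K[X]) (v : Q.Pl) : 0 ≤ Mw Q d p q v :=
  Finset.sum_nonneg fun i _ => Mw_term Q p q v i

theorem Mw_p {d : ℕ} {p q : K[X]} (hp : p.natDegree ≤ d) (v : Q.Pl) (i : ℕ)
    (hi : p.coeff i ≠ 0) : -(Mw Q d p q v : ℝ) ≤ Q.ord v (p.coeff i) := by
  have h1 : i ∈ range (d + 1) := by
    rw [Finset.mem_range]
    have := Polynomial.le_natDegree_of_ne_zero hi
    omega
  have h2 := Finset.single_le_sum (fun i _ => Mw_term Q p q v i) h1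
  have h3 := PlaceData.G_pole v (p.coeff i) hi
  have h4 := PlaceData.pole_nonneg v (q.coeff i)
  have h5 : -(Mw Q d p q v) ≤ Q.ord v (p.coeff i) := by
    unfold Mw
    linarith
  exact_mod_cast h5

theorem Mw_q {d : ℕ} {p q : K[X]} (hq : q.natDegree ≤ d) (v : Q.Pl) (i : ℕ)
    (hi : q.coeff i ≠ 0) : -(Mw Q d p q v : ℝ) ≤ Q.ord v (q.coeff i) := by
  have h1 : i ∈ range (d + 1) := by
    rw [Finset.mem_range]
    have := Polynomial.le_natDegree_of_ne_zero hi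
    omega
  have h2 := Finset.single_le_sum (fun i _ => Mw_term Q p q v i) h1
  have h3 := PlaceData.G_pole v (q.coeff i) hi
  have h4 := PlaceData.pole_nonneg v (p.coeff i)
  have h5 : -(Mw Q d p q v) ≤ Q.ord v (q.coeff i) := by
    unfold Mw
    linarith
  exact_mod_cast h5

theorem vo_bound [CharZero k] {d : ℕ} (hd : 2 ≤ d) {p q : K[X]} (h : Rat d p q) (v : Q.Pl)
    {Z : K × K} (hZ : Z ≠ 0) :
    |-(vo (Q.ord v) (bK d p q Z) : ℝ) - d * -(vo (Q.ord v) Z : ℝ)| ≤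
      (Q.ord v (rs d p q) : ℝ) + (2 * d + 1) * (Mw Q d p q v : ℝ) := by
  have hM : (0 : ℝ) ≤ (Mw Q d p q v : ℝ) := by exact_mod_cast Mw_nonneg Q d p q v
  have hdp : p.natDegree ≤ d := (le_max_left _ _).trans h.2.le
  have hdq : q.natDegree ≤ d := (le_max_right _ _).trans h.2.le
  have hFZ := bK_ne' (by omega) h hZ
  by_cases hπ : ∃ π : K, π ≠ 0 ∧ Q.ord v π ≠ 0
  · obtain ⟨π, h1, h2⟩ := hπ
    obtain ⟨Ω, _, _, _, ι, hι⟩ := exists_ext Q v π h1 h2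
    have hnat : ∀ n : ℕ, n ≠ 0 → ‖(n : Ω)‖ = 1 := by
      intro n hn
      have e1 : (n : K) = algebraMap k K (n : k) := by simp
      have e2 : (n : k) ≠ 0 := Nat.cast_ne_zero.mpr hn
      have e3 : (n : K) ≠ 0 := by
        rw [e1]
        exact (_root_.map_ne_zero _).mpr e2
      have e4 : Q.ord v (n : K) = 0 := by
        rw [e1]
        exact Q.ord_alg v _ e2
      have h3 := hι (n : K) e3
      rw [e4, map_natCast] at h3
      rw [h3]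
      simp
    have h3 := bound2 ι (Q.ord v) hι hnat (by omega) h _ hM (Mw_p Q hdp v) (Mw_q Q hdq v)
      (vm ι Z) (vm_ne ι hZ)
    have h4 : bK d (p.map ι) (q.map ι) (vm ι Z) = vm ι (bK d p q Z) :=
      iter_vm ι d p q 1 Z
    rw [h4, log_vm ι (Q.ord v) hι hZ, log_vm ι (Q.ord v) hι hFZ] at h3
    exact h3
  · push Not at hπ
    rw [hπ _ (rs_ne (by omega) h), vo_zero hπ hZ, vo_zero hπ hFZ]
    simp only [Int.cast_zero, neg_zero, mul_zero, sub_zero, abs_zero, zero_add]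
    positivity

/-- the point of the projective line and the height of the vector -/
theorem hV_pt {Z : K × K} (hZ : Z ≠ 0) :
    (Z.2 = 0 → hV Q Z = 0) ∧ (Z.2 ≠ 0 → hV Q Z = hE Q (Z.1 / Z.2)) := by
  obtain ⟨S, hS⟩ := exists_out Q {Z.1, Z.2, Z.1 / Z.2} (Set.toFinite _)
  have s1 := hS Z.1 (by simp)
  have s2 := hS Z.2 (by simp)
  have s3 := hS (Z.1 / Z.2) (by simp)
  refine ⟨fun h => ?_, fun h => ?_⟩
  · have h1 : Z.1 ≠ 0 := fun h1 => hZ (Prod.ext h1 h)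
    rw [hV_eq Q hZ s1 s2]
    have h2 := prod_eq Q h1 s1
    have h3 : ∑ v ∈ S, (Q.wt v : ℝ) * (-(vo (Q.ord v) Z : ℝ)) =
        -∑ v ∈ S, (Q.wt v : ℝ) * (Q.ord v Z.1 : ℝ) := by
      rw [← Finset.sum_neg_distrib]
      refine Finset.sum_congr rfl fun v _ => ?_
      unfold vo
      rw [if_neg h1, if_pos h]
      ring
    rw [h3, h2, neg_zero]
  · rw [hV_eq Q hZ s1 s2, hE_eq Q s3]
    have h2 := prod_eq Q h s2
    have h3 : ∑ v ∈ S, (Q.wt v : ℝ) * (-(vo (Q.ord v) Z : ℝ)) =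
        ∑ v ∈ S, (Q.wt v : ℝ) * (Q.pole v (Z.1 / Z.2) : ℝ) -
          ∑ v ∈ S, (Q.wt v : ℝ) * (Q.ord v Z.2 : ℝ) := by
      rw [← Finset.sum_sub_distrib]
      refine Finset.sum_congr rfl fun v _ => ?_
      have e1 : (-(vo (Q.ord v) Z : ℝ)) = (Q.pole v (Z.1 / Z.2) : ℝ) - Q.ord v Z.2 := by
        exact_mod_cast vo_pole Q v Z h
      rw [e1]
      ring
    rw [h3, h2, sub_zero]

theorem hV_nonneg {Z : K × K} (hZ : Z ≠ 0) : 0 ≤ hV Q Z := by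
  obtain ⟨h1, h2⟩ := hV_pt Q hZ
  by_cases h : Z.2 = 0
  · rw [h1 h]
  · rw [h2 h]
    exact hE_nonneg Q _

theorem hV_smul {Z : K × K} (hZ : Z ≠ 0) {c : K} (hc : c ≠ 0) : hV Q (c • Z) = hV Q Z := by
  obtain ⟨h1, h2⟩ := hV_pt Q hZ
  obtain ⟨h3, h4⟩ := hV_pt Q (smul_ne_zero hc hZ)
  by_cases h : Z.2 = 0
  · rw [h1 h, h3]
    simp [h]
  · rw [h2 h, h4 (by simpa using ⟨hc, h⟩)]
    congr 1
    simp only [Prod.smul_fst, Prod.smul_snd, smul_eq_mul]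
    rw [mul_div_mul_left _ _ hc]

/-- the constant -/
def Ad (d : ℕ) : ℝ := (2 * d + 1) * (2 * (d + 1))

theorem Ad_nonneg (d : ℕ) : 0 ≤ Ad d := by
  unfold Ad
  positivity

theorem coef_sum {d : ℕ} (hd : 1 ≤ d) {p q : K[X]} (h : Rat d p q) {H : ℝ}
    (hH : ∀ i, hE Q (p.coeff i) ≤ H ∧ hE Q (q.coeff i) ≤ H) {S : Finset Q.Pl}
    (s2 : Out Q S (rs d p q)) (s5 : ∀ i ∈ range (d + 1), Out Q S (p.coeff i))
    (s6 : ∀ i ∈ range (d + 1), Out Q S (q.coeff i)) :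
    ∑ v ∈ S, (Q.wt v : ℝ) * ((Q.ord v (rs d p q) : ℝ) + (2 * d + 1) * (Mw Q d p q v : ℝ)) ≤
      Ad d * H := by
  have e2 : ∑ v ∈ S, (Q.wt v : ℝ) * ((Q.ord v (rs d p q) : ℝ) +
        (2 * d + 1) * (Mw Q d p q v : ℝ)) =
      ∑ v ∈ S, (Q.wt v : ℝ) * (Q.ord v (rs d p q) : ℝ) +
      (2 * d + 1) * ∑ v ∈ S, (Q.wt v : ℝ) * (Mw Q d p q v : ℝ) := by
    rw [Finset.mul_sum, ← Finset.sum_add_distrib]
    exact Finset.sum_congr rfl fun v _ => by ring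
  have e4 : ∑ v ∈ S, (Q.wt v : ℝ) * (Mw Q d p q v : ℝ) =
      ∑ i ∈ range (d + 1), (hE Q (p.coeff i) + hE Q (q.coeff i)) := by
    unfold Mw
    push_cast
    simp only [Finset.mul_sum]
    rw [Finset.sum_comm]
    refine Finset.sum_congr rfl fun i hi => ?_
    rw [hE_eq Q (s5 i hi), hE_eq Q (s6 i hi), ← Finset.sum_add_distrib]
    exact Finset.sum_congr rfl fun v _ => by ring
  have e5 : ∑ i ∈ range (d + 1), (hE Q (p.coeff i) + hE Q (q.coeff i)) ≤ 2 * (d + 1) * H := by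
    have h1 : ∀ i ∈ range (d + 1), hE Q (p.coeff i) + hE Q (q.coeff i) ≤ 2 * H := fun i _ => by
      linarith [(hH i).1, (hH i).2]
    have h2 := Finset.sum_le_card_nsmul _ _ _ h1
    rw [Finset.card_range, nsmul_eq_mul] at h2
    push_cast at h2
    linarith
  rw [e2, e4, prod_eq Q (rs_ne hd h) s2, zero_add]
  have h6 := mul_le_mul_of_nonneg_left e5 (by positivity : 0 ≤ (2 * (d : ℝ) + 1))
  unfold Ad
  linarith

/-- one step -/
theorem grow [CharZero k] {d : ℕ} (hd : 2 ≤ d) {p q : K[X]} (h : Rat d p q) {H : ℝ}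
    (hH : ∀ i, hE Q (p.coeff i) ≤ H ∧ hE Q (q.coeff i) ≤ H) {Z : K × K} (hZ : Z ≠ 0) :
    d * hV Q Z ≤ hV Q (bK d p q Z) + Ad d * H := by
  obtain ⟨S, hS⟩ := exists_out Q
    ({rs d p q, Z.1, Z.2, (bK d p q Z).1, (bK d p q Z).2} ∪
      (fun i : ℕ => p.coeff i) '' (range (d + 1)) ∪ (fun i : ℕ => q.coeff i) '' (range (d + 1)))
    (by
      refine Set.Finite.union (Set.Finite.union (Set.toFinite _) ?_) ?_ <;>
      exact (Finset.finite_toSet _).image _)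
  have s2 : Out Q S (rs d p q) := hS _ (by simp)
  have s3 : Out Q S Z.1 := hS _ (by simp)
  have s4 : Out Q S Z.2 := hS _ (by simp)
  have s3' : Out Q S (bK d p q Z).1 := hS _ (by simp)
  have s4' : Out Q S (bK d p q Z).2 := hS _ (by simp)
  have s5 : ∀ i ∈ range (d + 1), Out Q S (p.coeff i) := fun i hi => hS _
    (Or.inl (Or.inr ⟨i, hi, rfl⟩))
  have s6 : ∀ i ∈ range (d + 1), Out Q S (q.coeff i) := fun i hi => hS _
    (Or.inr ⟨i, hi, rfl⟩)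
  have h1 := coef_sum Q (by omega) h hH s2 s5 s6
  rw [hV_eq Q hZ s3 s4, hV_eq Q (bK_ne' (by omega) h hZ) s3' s4', Finset.mul_sum]
  have h2 : ∑ v ∈ S, (d : ℝ) * ((Q.wt v : ℝ) * (-(vo (Q.ord v) Z : ℝ))) ≤
      ∑ v ∈ S, ((Q.wt v : ℝ) * (-(vo (Q.ord v) (bK d p q Z) : ℝ)) +
        (Q.wt v : ℝ) * ((Q.ord v (rs d p q) : ℝ) + (2 * d + 1) * (Mw Q d p q v : ℝ))) := by
    refine Finset.sum_le_sum fun v _ => ?_
    have h3 := (abs_le.1 (vo_bound Q hd h v hZ)).1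
    have h4 : (0 : ℝ) ≤ Q.wt v := by exact_mod_cast Q.wt_nonneg v
    have h5 := mul_le_mul_of_nonneg_left h3 h4
    linarith
  rw [Finset.sum_add_distrib] at h2
  linarith

theorem grow_iter [CharZero k] {d : ℕ} (hd : 2 ≤ d) {p q : K[X]} (h : Rat d p q) {H : ℝ}
    (hH : ∀ i, hE Q (p.coeff i) ≤ H ∧ hE Q (q.coeff i) ≤ H) {Z : K × K} (hZ : Z ≠ 0) (j : ℕ) :
    (d : ℝ) ^ j * hV Q Z ≤ hV Q ((bK d p q)^[j] Z) + Ad d * H * ((d : ℝ) ^ j - 1) := by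
  have hH0 : 0 ≤ H := (hE_nonneg Q _).trans (hH 0).1
  have hAH : 0 ≤ Ad d * H := mul_nonneg (Ad_nonneg d) hH0
  have hdR : (2 : ℝ) ≤ d := by exact_mod_cast hd
  induction j with
  | zero => simp
  | succ j ih =>
    rw [Function.iterate_succ_apply']
    have h1 := grow Q hd h hH (iter_ne (by omega) h hZ j)
    have h2 := mul_le_mul_of_nonneg_left ih (by linarith : (0 : ℝ) ≤ d)
    have h3 : Ad d * H * 1 ≤ Ad d * H * ((d : ℝ) - 1) :=
      mul_le_mul_of_nonneg_left (by linarith) hAH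
    rw [pow_succ]
    linarith

/-- periodic points -/
theorem hV_per [CharZero k] {d m : ℕ} (hd : 2 ≤ d) (hm : 1 ≤ m) {p q : K[X]} (h : Rat d p q)
    {H : ℝ} (hH : ∀ i, hE Q (p.coeff i) ≤ H ∧ hE Q (q.coeff i) ≤ H) {X₀ : K × K} {μ : K}
    (hX₀ : X₀ ≠ 0) (hμ : μ ≠ 0) (hper : (bK d p q)^[m] X₀ = μ • X₀) : hV Q X₀ ≤ Ad d * H := by
  have h1 := grow_iter Q hd h hH hX₀ m
  rw [hper, hV_smul Q hX₀ hμ] at h1
  have h2 : (1 : ℝ) < (d : ℝ) ^ m := one_lt_pow₀ (by exact_mod_cast hd) (by omega)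
  have h3 : ((d : ℝ) ^ m - 1) * hV Q X₀ ≤ ((d : ℝ) ^ m - 1) * (Ad d * H) := by linarith
  exact le_of_mul_le_mul_left h3 (by linarith)

/-- points of small canonical height -/
theorem hV_can [CharZero k] {d : ℕ} (hd : 2 ≤ d) {p q : K[X]} (h : Rat d p q)
    {H : ℝ} (hH : ∀ i, hE Q (p.coeff i) ≤ H ∧ hE Q (q.coeff i) ≤ H) {Z : K × K} (hZ : Z ≠ 0)
    {B : ℝ} (hB : ∀ B' : ℝ, B < B' → ∀ j : ℕ, ∃ m, j ≤ m ∧
      hV Q ((bK d p q)^[m] Z) ≤ B' * (d : ℝ) ^ m) (j : ℕ) :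
    hV Q ((bK d p q)^[j] Z) ≤ B * (d : ℝ) ^ j + Ad d * H := by
  have hH0 : 0 ≤ H := (hE_nonneg Q _).trans (hH 0).1
  have hAH : 0 ≤ Ad d * H := mul_nonneg (Ad_nonneg d) hH0
  have hdR : (2 : ℝ) ≤ d := by exact_mod_cast hd
  have hdj : (0 : ℝ) < (d : ℝ) ^ j := by positivity
  have key : ∀ B' : ℝ, B < B' → hV Q ((bK d p q)^[j] Z) ≤ B' * (d : ℝ) ^ j + Ad d * H := by
    intro B' hB'
    obtain ⟨m, hm, h1⟩ := hB B' hB' j
    obtain ⟨r, rfl⟩ := Nat.exists_eq_add_of_le hm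
    have h2 := grow_iter Q hd h hH (iter_ne (by omega) h hZ j) r
    rw [← Function.iterate_add_apply, add_comm r j] at h2
    have h3 : (0 : ℝ) < (d : ℝ) ^ r := by positivity
    rw [pow_add] at h1
    have h4 : (d : ℝ) ^ r * hV Q ((bK d p q)^[j] Z) ≤
        (d : ℝ) ^ r * (B' * (d : ℝ) ^ j + Ad d * H) := by
      nlinarith
    exact le_of_mul_le_mul_left h4 h3
  refine le_of_forall_pos_le_add fun ε hε => ?_
  have h1 := key (B + ε / (d : ℝ) ^ j) (by linarith [div_pos hε hdj])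
  have h2 : (B + ε / (d : ℝ) ^ j) * (d : ℝ) ^ j = B * (d : ℝ) ^ j + ε := by
    field_simp
  rw [h2] at h1
  linarith

end growth

end Pool.Agent.Q176.OP
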