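import Pool.Agent.Q176.OP.KEY
import Pool.Agent.Q176.OP.MULa
import Pool.Agent.Y362.CH.PD
import Pool.Agent.Y968.CH.Deg
import Pool.Agent.Y195.CH.CRT
import Pool.Agent.Y195.CH.NRM

/-!
# Project OP, job MUL: multipliers of maps whose critical points have small canonical height
-/

set_option autoImplicit false

namespace Pool.Agent.Q176.OP

open Pool.Agent.W277.UB Pool.Agent.W277.UG Pool.Agent.W277.UH Finset Polynomial
open Pool.Agent.Y706.CH (bK Crit vo pt vo_pole S_PD S_KF S_HT S_PT S_CRT S_FDA S_HTA)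
open Pool.Agent.Y706.CH7 (height canHeight IsCritical mapHeight)
open Pool.Agent.Q103.OP

universe u v w

theorem iter_pt {L : Type u} [Field L] (hPT : S_PT.{u}) (d : ℕ) (hd : 1 ≤ d) (p q : L[X])
    (h : Rat d p q) (X : L × L) (hX : X ≠ 0) (m : ℕ) :
    (ratP1 p q d)^[m] (pt X) = pt ((bK d p q)^[m] X) := by
  induction m with
  | zero => rfl
  | succ m ih =>
    obtain ⟨h1, h2⟩ := hPT L d hd p q h.2 h.1 _ (iter_ne hd h hX m)
    rw [Function.iterate_succ_apply', Function.iterate_succ_apply', ih]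
    exact h2

/-- the critical vectors are critical points -/
theorem crit_pt {L : Type u} [Field L] [CharZero L] {d : ℕ} {p q : L[X]}
    {Cr : Fin (2 * d - 2) → L × L} (hCr : Crit d p q Cr) (i : Fin (2 * d - 2)) :
    IsCritical p q d (pt (Cr i)) := by
  have h1 : Jv d p q (Cr i) = 0 := by
    rw [Jv_prod hCr]
    exact Finset.prod_eq_zero (Finset.mem_univ i) (wd_self _)
  have hW := Wr_prod hCr
  have hdeg2 : (Wr p q).natDegree ≤ 2 * d - 2 := by
    rw [hW]
    refine (Polynomial.natDegree_prod_le _ _).trans ?_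
    refine (Finset.sum_le_sum fun i _ => (by compute_degree :
      (X * C (Cr i).2 - C (Cr i).1 : L[X]).natDegree ≤ 1)).trans ?_
    simp
  unfold Jv at h1
  unfold pt
  by_cases h2 : (Cr i).2 = 0
  · rw [if_pos h2]
    have h3 : Cr i = ((Cr i).1, 0) := Prod.ext rfl h2
    rw [h3, hev_zero] at h1
    have h4 : (Cr i).1 ≠ 0 := fun h4 => hCr.1 i (Prod.ext h4 h2)
    exact (mul_eq_zero.1 h1).resolve_right (pow_ne_zero _ h4)
  · rw [if_neg h2]
    rw [hev_eval _ _ hdeg2 _ h2] at h1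
    exact (mul_eq_zero.1 h1).resolve_left (pow_ne_zero _ h2)

/-- values of the sequence from the canonical height -/
theorem can_bound {k : Type v} {E : Type u} [Field k] [Field E] [Algebra k E] {p q : E[X]}
    {d : ℕ} (hd : 1 ≤ d) {c : Option E} {b : ℝ}
    (h : canHeight k p q d c ≤ ENNReal.ofReal b) {b' : ℝ} (hb : b < b') (hb0 : 0 < b') (j : ℕ) :
    ∃ m, j ≤ m ∧ (height k ((ratP1 p q d)^[m] c) : ℝ) ≤ b' * (d : ℝ) ^ m := by
  have h1 : canHeight k p q d c < ENNReal.ofReal b' :=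
    h.trans_lt ((ENNReal.ofReal_lt_ofReal_iff hb0).2 hb)
  unfold canHeight at h1
  have h2 := Filter.eventually_lt_of_limsup_lt h1
  obtain ⟨m, hm, hm2⟩ := (h2.and (Filter.eventually_ge_atTop j)).exists
  refine ⟨m, hm2, ?_⟩
  have h3 := ENNReal.toReal_lt_of_lt_ofReal hm
  rw [ENNReal.toReal_div, ENNReal.toReal_pow, ENNReal.toReal_natCast,
    ENNReal.toReal_natCast] at h3
  have h4 : (0 : ℝ) < (d : ℝ) ^ m := by positivity
  rw [div_lt_iff₀ h4] at h3
  exact h3.le

/-- the constant of the comparison of the heights -/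
theorem comparison (hPD : S_PD.{u, u}) (hKF : S_KF.{u, v}) (hHT : S_HT.{u, v})
    (hFDA : S_FDA.{u, u}) (n : ℕ) : ∃ Cn : ℝ, 1 ≤ Cn ∧
    ∀ (k : Type v) (E : Type u) [Field k] [CharZero k] [Field E] [Algebra k E] (t : E),
    Transcendental k t → FiniteDimensional (IntermediateField.adjoin k {t}) E →
    Module.finrank (IntermediateField.adjoin k {t}) E ≤ n →
    ∃ (k' : Type u) (_ : Field k') (_ : CharZero k') (_ : Algebra k' E)
      (Q : PlaceData.{u} k' E), ∀ x : E,
      hE Q x ≤ Cn * (Module.finrank (IntermediateField.adjoin k {x}) E : ℝ) ∧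
      (Module.finrank (IntermediateField.adjoin k {x}) E : ℝ) ≤ Cn * hE Q x := by
  classical
  obtain ⟨C, hC⟩ := hPD
  set Cs : ℕ := ∑ i ∈ range (n + 1), C i + 1 with hCs
  have hCle : ∀ j ≤ n, C j ≤ Cs := by
    intro j hj
    have : C j ≤ ∑ i ∈ range (n + 1), C i :=
      Finset.single_le_sum (f := C) (fun i _ => Nat.zero_le _) (Finset.mem_range.mpr (by omega))
    omega
  have hCs1 : (1 : ℝ) ≤ Cs := by
    rw [hCs]
    push_cast
    have : (0 : ℝ) ≤ ∑ i ∈ range (n + 1), (C i : ℝ) := Finset.sum_nonneg fun i _ => Nat.cast_nonneg _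
    linarith
  refine ⟨Cs * (n + 1), ?_, ?_⟩
  · have : (0 : ℝ) ≤ n := Nat.cast_nonneg _
    nlinarith
  intro k E _ _ _ _ t ht hfd hn
  obtain ⟨inst, hst, hfin, hle⟩ := Pool.Agent.W277.UD.exists_ratAlg k E t ht
  obtain ⟨hkf, hkfle⟩ := hKF k E t ht hfd
  have hch : CharZero (algebraicClosure k E) :=
    charZero_of_injective_algebraMap (algebraMap k (algebraicClosure k E)).injective
  have hch2 : CharZero (RatFunc (algebraicClosure k E)) := charZero_of_injective_algebraMap
    (algebraMap (algebraicClosure k E) (RatFunc (algebraicClosure k E))).injective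
  have halg : ∀ x : E, IsAlgebraic (algebraicClosure k E) x →
      ∃ c : (algebraicClosure k E), algebraMap (algebraicClosure k E) E c = x := by
    intro y hy
    have h1 : IsAlgebraic k y := hy.restrictScalars k
    exact ⟨⟨y, h1.isIntegral⟩, rfl⟩
  obtain ⟨t₁, ht₁, hfd₁⟩ := hFDA (algebraicClosure k E) E
  have hcomp : ∀ x : E,
      Module.finrank (IntermediateField.adjoin (algebraicClosure k E) {x}) E ≤
        Module.finrank (IntermediateField.adjoin k {x}) E ∧
      Module.finrank (IntermediateField.adjoin k {x}) E ≤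
        n * Module.finrank (IntermediateField.adjoin (algebraicClosure k E) {x}) E := by
    intro x
    obtain ⟨h1, h2⟩ := hHT k (algebraicClosure k E) E E t₁ ht₁ hfd₁ x
    refine ⟨h1, h2.trans ?_⟩
    rw [Module.finrank_self, mul_one]
    exact Nat.mul_le_mul_right _ (hkfle.trans hn)
  have htn : ∀ c : algebraicClosure k E, t ≠ algebraMap (algebraicClosure k E) E c := by
    intro c hc
    apply ht
    rw [hc]
    exact mem_algebraicClosure_iff.mp c.2
  obtain ⟨u, -, hugen, huc⟩ := Pool.Agent.W277.UD.exists_gen (k := algebraicClosure k E)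
    (F := RatFunc (algebraicClosure k E)) (E := E) Set.univ
    (IntermediateField.adjoin_univ _ _) t (Set.mem_univ t) htn
  obtain ⟨Q, -, hQ2⟩ := hC (algebraicClosure k E) E halg u hugen huc
  refine ⟨algebraicClosure k E, inferInstance, hch, inferInstance, Q, fun x => ?_⟩
  obtain ⟨S, hS⟩ := exists_out Q {x} (Set.toFinite _)
  have s1 := hS x (by simp)
  have hp : ∀ v, v ∉ S → Q.pole v x = 0 := by
    intro v hv
    by_cases hx : x = 0
    · rw [hx, PlaceData.pole_zero]
    · rw [PlaceData.pole_of_ne hx, s1 hx v hv, neg_zero, max_self]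
  have hE0 := hE_nonneg Q x
  obtain ⟨a1, a2⟩ := hQ2 x S hp
  obtain ⟨b1, b2⟩ := hcomp x
  have e1 : ((∑ v ∈ S, Q.wt v * Q.pole v x : ℤ) : ℝ) = hE Q x := by
    rw [hE_eq Q s1]
    push_cast
    rfl
  have a1' : hE Q x ≤ (C (Module.finrank (RatFunc (algebraicClosure k E)) E) : ℝ) *
      (Module.finrank (IntermediateField.adjoin (algebraicClosure k E) {x}) E : ℝ) := by
    rw [← e1]
    exact_mod_cast a1
  have a2' : (Module.finrank (IntermediateField.adjoin (algebraicClosure k E) {x}) E : ℝ) ≤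
      (C (Module.finrank (RatFunc (algebraicClosure k E)) E) : ℝ) * hE Q x := by
    rw [← e1]
    exact_mod_cast a2
  have hc1 : (C (Module.finrank (RatFunc (algebraicClosure k E)) E) : ℝ) ≤ Cs := by
    exact_mod_cast hCle _ (hle.trans hn)
  have b1' : (Module.finrank (IntermediateField.adjoin (algebraicClosure k E) {x}) E : ℝ) ≤
      (Module.finrank (IntermediateField.adjoin k {x}) E : ℝ) := by exact_mod_cast b1
  have b2' : (Module.finrank (IntermediateField.adjoin k {x}) E : ℝ) ≤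
      n * (Module.finrank (IntermediateField.adjoin (algebraicClosure k E) {x}) E : ℝ) := by
    exact_mod_cast b2
  have hn0 : (0 : ℝ) ≤ n := Nat.cast_nonneg _
  have hCs0 : (0 : ℝ) ≤ Cs := by linarith
  have f0 : (0 : ℝ) ≤ (Module.finrank (IntermediateField.adjoin (algebraicClosure k E) {x}) E : ℝ) :=
    Nat.cast_nonneg _
  constructor
  · calc hE Q x ≤ _ := a1'
      _ ≤ Cs * (Module.finrank (IntermediateField.adjoin k {x}) E : ℝ) :=
        mul_le_mul hc1 b1' f0 hCs0
      _ ≤ Cs * (n + 1) * (Module.finrank (IntermediateField.adjoin k {x}) E : ℝ) := by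
        refine mul_le_mul_of_nonneg_right ?_ (Nat.cast_nonneg _)
        nlinarith
  · calc (Module.finrank (IntermediateField.adjoin k {x}) E : ℝ) ≤ _ := b2'
      _ ≤ n * (Cs * hE Q x) := by
        refine mul_le_mul_of_nonneg_left (a2'.trans ?_) hn0
        exact mul_le_mul_of_nonneg_right hc1 hE0
      _ ≤ Cs * (n + 1) * hE Q x := by
        have : 0 ≤ Cs * hE Q x := mul_nonneg hCs0 hE0
        nlinarith

theorem mul_aux (hKEY : S_KEY.{u, u, u}) (hPD : S_PD.{u, u}) (hKF : S_KF.{u, v})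
    (hHT : S_HT.{u, v}) (hFDA : S_FDA.{u, u}) (hPT : S_PT.{u}) (hCRT : S_CRT.{u}) :
    S_MUL.{u, v} := by
  classical
  intro n d m hd hm
  obtain ⟨Cn, hCn, hcmp⟩ := comparison hPD hKF hHT hFDA n
  obtain ⟨C₀, hC₀, hkey⟩ := hKEY d m hd hm
  have hA := Ad_nonneg d
  set r : ℝ := ((2 * d - 2 : ℕ) : ℝ) * m with hr
  have hr0 : 0 ≤ r := by positivity
  have hCn0 : (0 : ℝ) ≤ Cn := by linarith
  refine ⟨Cn * Cn * (C₀ + r * (1 + 2 * Ad d)), by positivity, ?_⟩
  intro k E _ _ _ _ t ht hfd hn p q h hsp b hb hcan X₀ μ hX₀ hμ hper N hN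
  obtain ⟨k', _, _, _, Q, hQ⟩ := hcmp k E t ht hfd hn
  haveI : CharZero E := charZero_of_injective_algebraMap (algebraMap k E).injective
  -- the coefficients
  set MH : ℝ := (mapHeight k p q d : ℝ) with hMH
  have hMH0 : 0 ≤ MH := Nat.cast_nonneg _
  have hmp : ∀ i ≤ d, height k (some (p.coeff i)) ≤ mapHeight k p q d := fun i hi =>
    (le_max_left _ _).trans (Finset.le_sup (f := fun i =>
      max (height k (some (p.coeff i))) (height k (some (q.coeff i))))
        (Finset.mem_range.mpr (Nat.lt_succ_of_le hi)))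
  have hmq : ∀ i ≤ d, height k (some (q.coeff i)) ≤ mapHeight k p q d := fun i hi =>
    (le_max_right _ _).trans (Finset.le_sup (f := fun i =>
      max (height k (some (p.coeff i))) (height k (some (q.coeff i))))
        (Finset.mem_range.mpr (Nat.lt_succ_of_le hi)))
  have hdp : p.natDegree ≤ d := (le_max_left _ _).trans h.2.le
  have hdq : q.natDegree ≤ d := (le_max_right _ _).trans h.2.le
  have hcoef : ∀ f : E[X], f.natDegree ≤ d →
      (∀ i ≤ d, height k (some (f.coeff i)) ≤ mapHeight k p q d) → ∀ i,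
      hE Q (f.coeff i) ≤ Cn * MH := by
    intro f hf1 hf2 i
    by_cases hi : i ≤ d
    · refine (hQ _).1.trans (mul_le_mul_of_nonneg_left ?_ hCn0)
      rw [hMH]
      exact Nat.cast_le.2 (hf2 i hi)
    · rw [coeff_eq_zero_of_natDegree_lt (by omega), hE_zero]
      positivity
  have hH : ∀ i, hE Q (p.coeff i) ≤ Cn * MH ∧ hE Q (q.coeff i) ≤ Cn * MH := fun i =>
    ⟨hcoef p hdp hmp i, hcoef q hdq hmq i⟩
  obtain ⟨Cr, hCr, -, -⟩ := hCRT E d hd p q h.2 h.1 hsp
  have hk := hkey k' E Q p q h (Cn * MH) hH Cr hCr X₀ μ hX₀ hμ hper N hN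
  -- the heights of the points
  have hper' := hV_per Q hd hm h hH hX₀ hμ hper
  have hpt : ∀ Z : E × E, Z ≠ 0 → hV Q Z ≤ Cn * (height k (pt Z) : ℝ) := by
    intro Z hZ
    obtain ⟨h1, h2⟩ := hV_pt Q hZ
    by_cases h3 : Z.2 = 0
    · rw [h1 h3]
      positivity
    · rw [h2 h3]
      unfold pt
      rw [if_neg h3]
      exact (hQ _).1
  have hcr : ∀ i, ∀ j, hV Q ((bK d p q)^[j] (Cr i)) ≤
      Cn * b * (d : ℝ) ^ j + Ad d * (Cn * MH) := by
    intro i j
    refine hV_can Q hd h hH (hCr.1 i) (fun B' hB' j => ?_) j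
    have hB0 : 0 < B' := lt_of_le_of_lt (by positivity) hB'
    have hCnp : 0 < Cn := by linarith
    obtain ⟨M, hM, hM2⟩ := can_bound (by omega : 1 ≤ d) (hcan _ (crit_pt hCr i))
      (b' := B' / Cn) (by
        rw [lt_div_iff₀ hCnp]
        linarith) (by positivity) j
    refine ⟨M, hM, ?_⟩
    rw [iter_pt hPT d (by omega) p q h _ (hCr.1 i)] at hM2
    refine (hpt _ (iter_ne (by omega) h (hCr.1 i) M)).trans ?_
    refine (mul_le_mul_of_nonneg_left hM2 hCn0).trans (le_of_eq ?_)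
    field_simp
  have hd1 : (1 : ℝ) ≤ d := by
    have : (2 : ℝ) ≤ d := by exact_mod_cast hd
    linarith
  have hsum : ∑ i, ∑ a ∈ range m, hL Q ((bK d p q)^[m * N - a] (Cr i)) X₀ ≤
      r * (Cn * b * (d : ℝ) ^ (m * N) + 2 * Ad d * (Cn * MH)) := by
    have h1 : ∀ i : Fin (2 * d - 2), ∀ a ∈ range m,
        hL Q ((bK d p q)^[m * N - a] (Cr i)) X₀ ≤
        Cn * b * (d : ℝ) ^ (m * N) + 2 * Ad d * (Cn * MH) := by
      intro i a _
      have h2 := hcr i (m * N - a)
      have h3 : (d : ℝ) ^ (m * N - a) ≤ (d : ℝ) ^ (m * N) :=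
        pow_le_pow_right₀ hd1 (Nat.sub_le _ _)
      have h4 : Cn * b * (d : ℝ) ^ (m * N - a) ≤ Cn * b * (d : ℝ) ^ (m * N) :=
        mul_le_mul_of_nonneg_left h3 (by positivity)
      have h5 : 0 ≤ Cn * b * (d : ℝ) ^ (m * N) := by positivity
      have h6 : 0 ≤ Ad d * (Cn * MH) := by positivity
      unfold hL
      split_ifs
      · linarith
      · linarith
    have h2 : ∀ i ∈ (univ : Finset (Fin (2 * d - 2))),
        ∑ a ∈ range m, hL Q ((bK d p q)^[m * N - a] (Cr i)) X₀ ≤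
        m * (Cn * b * (d : ℝ) ^ (m * N) + 2 * Ad d * (Cn * MH)) := by
      intro i _
      have h3 := Finset.sum_le_card_nsmul _ _ _ (h1 i)
      rw [Finset.card_range, nsmul_eq_mul] at h3
      exact h3
    have h4 := Finset.sum_le_card_nsmul _ _ _ h2
    rw [Finset.card_univ, Fintype.card_fin, nsmul_eq_mul] at h4
    rw [hr]
    linarith
  -- conclusion
  have hRHS : 0 ≤ Cn * Cn * (C₀ + r * (1 + 2 * Ad d)) * MH +
      Cn * Cn * (C₀ + r * (1 + 2 * Ad d)) * (d : ℝ) ^ (m * N) * b := by positivity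
  rcases le_or_gt ((N : ℝ) - 3) 0 with hN3 | hN3
  · refine le_trans (mul_nonpos_of_nonpos_of_nonneg hN3 (Nat.cast_nonneg _)) hRHS
  · have h1 := mul_le_mul_of_nonneg_left (hQ (mlt d p q m X₀ μ)).2 hN3.le
    have h2 : Cn * (((N : ℝ) - 3) * hE Q (mlt d p q m X₀ μ)) ≤
        Cn * (C₀ * (Cn * MH) + r * (Cn * b * (d : ℝ) ^ (m * N) + 2 * Ad d * (Cn * MH))) :=
      mul_le_mul_of_nonneg_left (hk.trans (by linarith)) hCn0
    have h3 : 0 ≤ Cn * Cn * r * MH := by positivity
    have h4 : 0 ≤ Cn * Cn * (C₀ + 2 * r * Ad d) * (d : ℝ) ^ (m * N) * b := by positivity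
    have e1 : Cn * Cn * (C₀ + r * (1 + 2 * Ad d)) * MH +
      Cn * Cn * (C₀ + r * (1 + 2 * Ad d)) * (d : ℝ) ^ (m * N) * b =
      Cn * (C₀ * (Cn * MH) + r * (Cn * b * (d : ℝ) ^ (m * N) + 2 * Ad d * (Cn * MH))) +
        Cn * Cn * r * MH + Cn * Cn * (C₀ + 2 * r * Ad d) * (d : ℝ) ^ (m * N) * b := by ring
    rw [e1]
    linarith

theorem t_MUL (hKEY : S_KEY.{u, u, u}) : S_MUL.{u, v} :=
  mul_aux hKEY Pool.Agent.Y362.CH.t_PD Pool.Agent.Y968.CH.t_KF Pool.Agent.Y968.CH.t_HT
    Pool.Agent.Y195.CH.t_FDA Pool.Agent.Y195.CH.t_PT Pool.Agent.Y195.CH.t_CRT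

end Pool.Agent.Q176.OP
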