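import Pool.Agent.Q103.OP.Defs
import Pool.Agent.Y86.CH.Loc

/-!
# Project OP, job KEY: sums over the places
-/

set_option autoImplicit false

namespace Pool.Agent.Q176.OP

open Pool.Agent.W277.UB Pool.Agent.W277.UG Pool.Agent.W277.UH Finset Polynomial
open Pool.Agent.Y706.CH (bK Crit vo pt)
open Pool.Agent.Q103.OP

universe u v w

section places

variable {k : Type v} {K : Type u} [Field k] [Field K] [Algebra k K] (Q : PlaceData.{w} k K)

/-- the places outside `S` do not see `x` -/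
def Out (S : Finset Q.Pl) (x : K) : Prop := x ≠ 0 → ∀ v, v ∉ S → Q.ord v x = 0

theorem exists_out (T : Set K) (hT : T.Finite) : ∃ S : Finset Q.Pl, ∀ x ∈ T, Out Q S x := by
  have h : (⋃ x ∈ T, {v | x ≠ 0 ∧ Q.ord v x ≠ 0}).Finite := by
    refine hT.biUnion fun x _ => ?_
    by_cases hx : x = 0
    · refine Set.finite_empty.subset ?_
      rintro v ⟨h1, -⟩
      exact absurd hx h1
    · exact (Q.fin x hx).subset fun v hv => hv.2
  refine ⟨h.toFinset, fun x hx h0 v hv => ?_⟩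
  by_contra h1
  apply hv
  rw [Set.Finite.mem_toFinset, Set.mem_iUnion₂]
  exact ⟨x, hx, h0, h1⟩

theorem prod_eq {x : K} (hx : x ≠ 0) {S : Finset Q.Pl} (hS : Out Q S x) :
    ∑ v ∈ S, (Q.wt v : ℝ) * (Q.ord v x : ℝ) = 0 := by
  have h1 := Q.prod_formula x hx S fun v hv => (hS hx v hv).ge
  have h2 := Q.prod_formula x⁻¹ (inv_ne_zero hx) S fun v hv => by
    rw [PlaceData.ord_inv hx, hS hx v hv, neg_zero]
  have h3 : ∑ v ∈ S, Q.wt v * Q.ord v x⁻¹ = -∑ v ∈ S, Q.wt v * Q.ord v x := by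
    rw [← Finset.sum_neg_distrib]
    refine Finset.sum_congr rfl fun v _ => ?_
    rw [PlaceData.ord_inv hx]
    ring
  have h4 : ∑ v ∈ S, Q.wt v * Q.ord v x = 0 := by linarith
  exact_mod_cast h4

theorem hE_eq {x : K} {S : Finset Q.Pl} (hS : Out Q S x) :
    hE Q x = ∑ v ∈ S, (Q.wt v : ℝ) * (Q.pole v x : ℝ) := by
  unfold hE
  refine finsum_eq_sum_of_support_subset _ fun v hv => ?_
  by_contra h1
  apply hv
  have h2 : Q.pole v x = 0 := by
    by_cases hx : x = 0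
    · rw [hx, PlaceData.pole_zero]
    · rw [PlaceData.pole_of_ne hx, hS hx v h1, neg_zero, max_self]
  change (Q.wt v : ℝ) * (Q.pole v x : ℝ) = 0
  rw [h2, Int.cast_zero, mul_zero]

theorem hE_nonneg (x : K) : 0 ≤ hE Q x := by
  unfold hE
  refine finsum_nonneg fun v => ?_
  have h1 : (0 : ℝ) ≤ Q.wt v := by exact_mod_cast Q.wt_nonneg v
  have h2 : (0 : ℝ) ≤ Q.pole v x := by exact_mod_cast PlaceData.pole_nonneg v x
  positivity

theorem hE_zero : hE Q 0 = 0 := by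
  unfold hE
  simp [PlaceData.pole_zero]

/-- the height as a sum of zeros -/
theorem hE_eq' {x : K} (hx : x ≠ 0) {S : Finset Q.Pl} (hS : Out Q S x) :
    hE Q x = ∑ v ∈ S, (Q.wt v : ℝ) * (max 0 (Q.ord v x) : ℤ) := by
  rw [hE_eq Q hS]
  have h1 := prod_eq Q hx hS
  have h2 : ∑ v ∈ S, (Q.wt v : ℝ) * (max 0 (Q.ord v x) : ℤ) -
      ∑ v ∈ S, (Q.wt v : ℝ) * (Q.pole v x : ℝ) = ∑ v ∈ S, (Q.wt v : ℝ) * (Q.ord v x : ℝ) := by
    rw [← Finset.sum_sub_distrib]
    refine Finset.sum_congr rfl fun v _ => ?_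
    rw [PlaceData.pole_of_ne hx, ← mul_sub]
    congr 1
    have h3 : max 0 (Q.ord v x) - max 0 (-Q.ord v x) = Q.ord v x := by
      rcases le_total 0 (Q.ord v x) with h | h
      · rw [max_eq_right h, max_eq_left (by linarith)]
        ring
      · rw [max_eq_left h, max_eq_right (by linarith)]
        ring
    exact_mod_cast h3
  linarith

theorem vo_out {Z : K × K} (hZ : Z ≠ 0) {S : Finset Q.Pl} (h1 : Out Q S Z.1) (h2 : Out Q S Z.2)
    {v : Q.Pl} (hv : v ∉ S) : vo (Q.ord v) Z = 0 := by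
  unfold vo
  by_cases e1 : Z.1 = 0
  · rw [if_pos e1]
    exact h2 (fun e2 => hZ (Prod.ext e1 e2)) v hv
  · rw [if_neg e1]
    by_cases e2 : Z.2 = 0
    · rw [if_pos e2]
      exact h1 e1 v hv
    · rw [if_neg e2, h1 e1 v hv, h2 e2 v hv, min_self]

theorem hV_eq {Z : K × K} (hZ : Z ≠ 0) {S : Finset Q.Pl} (h1 : Out Q S Z.1) (h2 : Out Q S Z.2) :
    hV Q Z = ∑ v ∈ S, (Q.wt v : ℝ) * (-(vo (Q.ord v) Z : ℝ)) := by
  unfold hV
  refine finsum_eq_sum_of_support_subset _ fun v hv => ?_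
  by_contra h3
  apply hv
  change (Q.wt v : ℝ) * (-(vo (Q.ord v) Z : ℝ)) = 0
  rw [vo_out Q hZ h1 h2 h3]
  simp

theorem G_vo {Z : K × K} (v : Q.Pl) :
    Q.G v (vo (Q.ord v) Z) Z.1 ∧ Q.G v (vo (Q.ord v) Z) Z.2 := by
  unfold vo
  by_cases e1 : Z.1 = 0
  · rw [if_pos e1, e1]
    exact ⟨PlaceData.G_zero, PlaceData.G_self⟩
  · rw [if_neg e1]
    by_cases e2 : Z.2 = 0
    · rw [if_pos e2, e2]
      exact ⟨PlaceData.G_self, PlaceData.G_zero⟩
    · rw [if_neg e2]
      exact ⟨fun _ => min_le_left _ _, fun _ => min_le_right _ _⟩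

/-- the local contribution -/
noncomputable def Bv (v : Q.Pl) (Z X₀ : K × K) : ℤ := by
  classical
  exact if wd Z X₀ = 0 then 0 else Q.ord v (wd Z X₀) - vo (Q.ord v) Z - vo (Q.ord v) X₀

theorem Bv_nonneg (v : Q.Pl) (Z X₀ : K × K) : 0 ≤ Bv Q v Z X₀ := by
  unfold Bv
  split_ifs with h
  · exact le_rfl
  · obtain ⟨a1, a2⟩ := G_vo Q (Z := Z) v
    obtain ⟨b1, b2⟩ := G_vo Q (Z := X₀) v
    have h1 : Q.G v (vo (Q.ord v) Z + vo (Q.ord v) X₀) (wd Z X₀) :=
      PlaceData.G_sub (PlaceData.G_mul a1 b2) (PlaceData.G_mul a2 b1)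
    have h2 := h1 h
    linarith

theorem hL_eq {Z X₀ : K × K} {S : Finset Q.Pl} (h1 : Out Q S Z.1) (h2 : Out Q S Z.2)
    (h3 : Out Q S X₀.1) (h4 : Out Q S X₀.2) (h5 : Out Q S (wd Z X₀)) :
    hL Q Z X₀ = ∑ v ∈ S, (Q.wt v : ℝ) * (Bv Q v Z X₀ : ℝ) := by
  unfold hL Bv
  by_cases h : wd Z X₀ = 0
  · rw [if_pos h]
    simp [h]
  · have hZ : Z ≠ 0 := by
      rintro rfl
      apply h
      simp [wd]
    have hX : X₀ ≠ 0 := by
      rintro rfl
      apply h
      simp [wd]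
    rw [if_neg h, hV_eq Q hZ h1 h2, hV_eq Q hX h3 h4, ← Finset.sum_add_distrib]
    have h6 := prod_eq Q h h5
    rw [← zero_add (∑ v ∈ S, _), ← h6, ← Finset.sum_add_distrib]
    refine Finset.sum_congr rfl fun v _ => ?_
    rw [if_neg h]
    push_cast
    ring

theorem hL_nonneg (Z X₀ : K × K) : 0 ≤ hL Q Z X₀ := by
  obtain ⟨S, hS⟩ := exists_out Q {Z.1, Z.2, X₀.1, X₀.2, wd Z X₀} (Set.toFinite _)
  rw [hL_eq Q (hS _ (by simp)) (hS _ (by simp)) (hS _ (by simp)) (hS _ (by simp))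
    (hS _ (by simp))]
  refine Finset.sum_nonneg fun v _ => ?_
  have h1 : (0 : ℝ) ≤ Q.wt v := by exact_mod_cast Q.wt_nonneg v
  have h2 : (0 : ℝ) ≤ Bv Q v Z X₀ := by exact_mod_cast Bv_nonneg Q v Z X₀
  positivity

end places

/-! ### vectors -/

section vectors

variable {K : Type*} [Field K]

theorem bK_smul (d : ℕ) (p q : K[X]) (c : K) (Z : K × K) :
    bK d p q (c • Z) = c ^ d • bK d p q Z := by
  unfold bK
  rw [hev_smul, hev_smul]
  rfl

theorem iter_smul (d : ℕ) (p q : K[X]) (c : K) (Z : K × K) (j : ℕ) :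
    (bK d p q)^[j] (c • Z) = c ^ (d ^ j) • (bK d p q)^[j] Z := by
  induction j with
  | zero => simp
  | succ j ih =>
    rw [Function.iterate_succ_apply', Function.iterate_succ_apply', ih, bK_smul, ← pow_mul,
      pow_succ]

theorem prop_of_wd {Y C : K × K} (hY : Y ≠ 0) (hC : C ≠ 0) (h : wd Y C = 0) :
    ∃ c : K, c ≠ 0 ∧ Y = c • C := by
  unfold wd at h
  by_cases h1 : C.1 = 0
  · have h2 : C.2 ≠ 0 := fun h2 => hC (Prod.ext h1 h2)
    rw [h1, mul_zero, sub_zero] at h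
    have h3 : Y.1 = 0 := (mul_eq_zero.1 h).resolve_right h2
    have h4 : Y.2 ≠ 0 := fun h4 => hY (Prod.ext h3 h4)
    refine ⟨Y.2 / C.2, div_ne_zero h4 h2, Prod.ext ?_ ?_⟩
    · rw [h3]
      simp [h1]
    · simp only [Prod.smul_snd, smul_eq_mul]
      field_simp
  · have h2 : Y.1 ≠ 0 := by
      intro h2
      rw [h2, zero_mul, zero_sub, neg_eq_zero] at h
      have h3 : Y.2 = 0 := (mul_eq_zero.1 h).resolve_right h1
      exact hY (Prod.ext h2 h3)
    refine ⟨Y.1 / C.1, div_ne_zero h2 h1, Prod.ext ?_ ?_⟩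
    · simp only [Prod.smul_fst, smul_eq_mul]
      field_simp
    · simp only [Prod.smul_snd, smul_eq_mul]
      field_simp
      linear_combination -h

/-- the Wronskian as a product -/
theorem Wr_prod [CharZero K] {d : ℕ} {p q : K[X]} {c : Fin (2 * d - 2) → K × K}
    (h : Crit d p q c) : Wr p q = ∏ i, (X * C (c i).2 - C (c i).1) := by
  obtain ⟨-, h2⟩ := h
  apply Polynomial.funext
  intro y
  unfold Wr
  rw [h2, Polynomial.eval_prod]
  refine Finset.prod_congr rfl fun i _ => ?_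
  unfold wd
  simp only [Polynomial.eval_sub, Polynomial.eval_mul, Polynomial.eval_X, Polynomial.eval_C]
  ring

theorem Jv_prod [CharZero K] {d : ℕ} {p q : K[X]} {c : Fin (2 * d - 2) → K × K}
    (h : Crit d p q c) (Z : K × K) : Jv d p q Z = ∏ i, wd Z (c i) := by
  have hW := Wr_prod h
  have hdeg : ∀ i, (X * C (c i).2 - C (c i).1 : K[X]).natDegree ≤ 1 := by
    intro i
    compute_degree
  have hdeg2 : (Wr p q).natDegree ≤ 2 * d - 2 := by
    rw [hW]
    refine (Polynomial.natDegree_prod_le _ _).trans ?_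
    refine (Finset.sum_le_sum fun i _ => hdeg i).trans ?_
    simp
  unfold Jv
  by_cases hZ : Z.2 = 0
  · have hZ' : Z = (Z.1, 0) := Prod.ext rfl hZ
    rw [hZ', hev_zero, hW]
    have h1 := Polynomial.coeff_prod_of_natDegree_le (s := Finset.univ)
      (f := fun i => (X * C (c i).2 - C (c i).1 : K[X])) (n := 1) fun i _ => hdeg i
    rw [Finset.card_univ, Fintype.card_fin, mul_one] at h1
    rw [h1]
    have h2 : Z.1 ^ (2 * d - 2) = ∏ _i : Fin (2 * d - 2), Z.1 := by simp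
    rw [h2, ← Finset.prod_mul_distrib]
    refine Finset.prod_congr rfl fun i _ => ?_
    unfold wd
    simp [Polynomial.coeff_C]
    ring
  · rw [hev_eval _ _ hdeg2 Z hZ, hW, Polynomial.eval_prod]
    have h2 : Z.2 ^ (2 * d - 2) = ∏ _i : Fin (2 * d - 2), Z.2 := by simp
    rw [h2, ← Finset.prod_mul_distrib]
    refine Finset.prod_congr rfl fun i _ => ?_
    unfold wd
    simp only [Polynomial.eval_sub, Polynomial.eval_mul, Polynomial.eval_X, Polynomial.eval_C]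
    field_simp

end vectors

end Pool.Agent.Q176.OP
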