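import Pool.Agent.Q176.OP.KEYa

/-!
# Project OP, job KEY: the height of a multiplier
-/

set_option autoImplicit false

namespace Pool.Agent.Q176.OP

open Pool.Agent.W277.UB Pool.Agent.W277.UG Pool.Agent.W277.UH Finset Polynomial
open Pool.Agent.Y706.CH (bK Crit vo pt)
open Pool.Agent.Q103.OP
open Pool.Agent.Y86.CH (norm_bF_le norm_F_lower bK_ne vm_ne log_vm iter_vm crit_map)

universe u v w

/-- the resultant -/
noncomputable def rs {K : Type*} [Field K] (d : ℕ) (p q : K[X]) : K := by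
  classical
  exact if q.natDegree = d then resultant q p d d else resultant p q d d

theorem rs_ne {K : Type*} [Field K] {d : ℕ} (hd : 1 ≤ d) {p q : K[X]} (h : Rat d p q) :
    rs d p q ≠ 0 := by
  unfold rs
  obtain ⟨h1, h2⟩ := h
  split_ifs with h3
  · exact res_ne d p q ((le_max_left _ _).trans h2.le) h3 hd h1
  · have h4 : p.natDegree = d := by
      rcases max_choice p.natDegree q.natDegree with h5 | h5
      · rw [← h5, h2]
      · exact absurd (h5.symm.trans h2) h3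
    exact res_ne d q p ((le_max_right _ _).trans h2.le) h4 hd h1.symm

theorem bK_ne' {K : Type*} [Field K] {d : ℕ} (hd : 1 ≤ d) {p q : K[X]} (h : Rat d p q)
    {Z : K × K} (hZ : Z ≠ 0) : bK d p q Z ≠ 0 := by
  obtain ⟨h1, h2⟩ := h
  by_cases h3 : q.natDegree = d
  · exact bK_ne d p q ((le_max_left _ _).trans h2.le) h3 hd h1 Z hZ
  · have h4 : p.natDegree = d := by
      rcases max_choice p.natDegree q.natDegree with h5 | h5
      · rw [← h5, h2]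
      · exact absurd (h5.symm.trans h2) h3
    have h5 := bK_ne d q p ((le_max_right _ _).trans h2.le) h4 hd h1.symm Z hZ
    intro h6
    apply h5
    have e1 : hev d p Z = 0 := congrArg Prod.fst h6
    have e2 : hev d q Z = 0 := congrArg Prod.snd h6
    exact Prod.ext e2 e1

theorem iter_ne {K : Type*} [Field K] {d : ℕ} (hd : 1 ≤ d) {p q : K[X]} (h : Rat d p q)
    {Z : K × K} (hZ : Z ≠ 0) (m : ℕ) : (bK d p q)^[m] Z ≠ 0 := by
  induction m with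
  | zero => exact hZ
  | succ m ih =>
    rw [Function.iterate_succ_apply']
    exact bK_ne' hd h ih

section loc

variable {K : Type u} [Field K] {Ω : Type u} [NormedField Ω] [IsUltrametricDist Ω]
  [IsAlgClosed Ω]

theorem map_cop (ι : K →+* Ω) {p q : K[X]} (h : IsCoprime p q) :
    IsCoprime (p.map ι) (q.map ι) := by
  obtain ⟨u, w, h⟩ := h
  refine ⟨u.map ι, w.map ι, ?_⟩
  rw [← Polynomial.map_mul, ← Polynomial.map_mul, ← Polynomial.map_add, h, Polynomial.map_one]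

theorem map_rat (ι : K →+* Ω) {d : ℕ} {p q : K[X]} (h : Rat d p q) :
    Rat d (p.map ι) (q.map ι) := by
  refine ⟨map_cop ι h.1, ?_⟩
  rw [Polynomial.natDegree_map_eq_of_injective ι.injective,
    Polynomial.natDegree_map_eq_of_injective ι.injective]
  exact h.2

theorem bound1 (ι : K →+* Ω) (ord : K → ℤ)
    (hι : ∀ x : K, x ≠ 0 → ‖ι x‖ = Real.exp (-(ord x : ℝ)))
    (hnat : ∀ n : ℕ, n ≠ 0 → ‖(n : Ω)‖ = 1) {d : ℕ} (hd : 1 ≤ d) {p q : K[X]}
    (hp : p.natDegree ≤ d) (hq : q.natDegree = d) (hco : IsCoprime p q) (M : ℝ) (hM : 0 ≤ M)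
    (hMp : ∀ i, p.coeff i ≠ 0 → -M ≤ ord (p.coeff i))
    (hMq : ∀ i, q.coeff i ≠ 0 → -M ≤ ord (q.coeff i)) (Y : Ω × Ω) (hY : Y ≠ 0) :
    |Real.log ‖bF d (p.map ι) (q.map ι) Y‖ - d * Real.log ‖Y‖| ≤
      (ord (resultant q p d d) : ℝ) + (2 * d + 1) * M := by
  have hdR : (1 : ℝ) ≤ d := by exact_mod_cast hd
  have hres := res_ne d p q hp hq hd hco
  have hpΩ : (p.map ι).natDegree ≤ d := Polynomial.natDegree_map_le.trans hp
  have hqΩ : (q.map ι).natDegree = d := by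
    rw [Polynomial.natDegree_map_eq_of_injective ι.injective, hq]
  obtain ⟨S₀, hF₀, hd₀, hR₀⟩ := exists_base d (p.map ι) (q.map ι) hpΩ hqΩ hd (map_cop ι hco)
  rw [resultant_map_map, hι _ hres] at hR₀
  have hRes₀ : S₀.Res = ord (resultant q p d d) := by
    have h1 := Real.exp_injective hR₀
    linarith
  have hcoef : ∀ r : K[X], (∀ i, r.coeff i ≠ 0 → -M ≤ ord (r.coeff i)) →
      ∀ i, ‖(r.map ι).coeff i‖ ≤ Real.exp M := by
    intro r hr i
    rw [Polynomial.coeff_map]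
    by_cases h0 : r.coeff i = 0
    · rw [h0, map_zero, norm_zero]
      exact (Real.exp_pos _).le
    · rw [hι _ h0, Real.exp_le_exp]
      have := hr i h0
      linarith
  have hFle : ∀ Y : Ω × Ω, ‖S₀.F Y‖ ≤ Real.exp M * ‖Y‖ ^ d := by
    intro Y
    rw [hF₀]
    exact norm_bF_le d _ _ (hcoef p hMp) (hcoef q hMq) Y
  have hgsM : Real.log S₀.gs ≤ M := by
    obtain ⟨Bf, -⟩ := exists_fam hnat
    obtain ⟨E, hE⟩ := HS.gs_attained (S := S₀) Bf
    obtain ⟨i, hi⟩ := Infinite.exists_notMem_finset E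
    rw [Real.log_le_iff_le_exp HS.gs_pos, ← hE i hi]
    have := hFle (Bf.b i)
    rwa [Bf.unit, one_pow, mul_one] at this
  have hY' : 0 < ‖Y‖ := norm_pos_iff.mpr hY
  have hFY : 0 < ‖S₀.F Y‖ := norm_pos_iff.mpr (S₀.nz Y hY)
  have h1 := norm_F_lower hnat S₀ Y hY
  rw [hd₀, hRes₀] at h1
  have h2 := Real.log_le_log hFY (hFle Y)
  rw [Real.log_mul (Real.exp_pos _).ne' (by positivity), Real.log_exp, Real.log_pow] at h2
  have h3 : (2 * (d : ℝ) - 1) * Real.log S₀.gs ≤ (2 * (d : ℝ) - 1) * M :=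
    mul_le_mul_of_nonneg_left hgsM (by linarith)
  rw [← hF₀, abs_le]
  constructor
  · nlinarith
  · nlinarith

theorem bound2 (ι : K →+* Ω) (ord : K → ℤ)
    (hι : ∀ x : K, x ≠ 0 → ‖ι x‖ = Real.exp (-(ord x : ℝ)))
    (hnat : ∀ n : ℕ, n ≠ 0 → ‖(n : Ω)‖ = 1) {d : ℕ} (hd : 1 ≤ d) {p q : K[X]}
    (h : Rat d p q) (M : ℝ) (hM : 0 ≤ M)
    (hMp : ∀ i, p.coeff i ≠ 0 → -M ≤ ord (p.coeff i))
    (hMq : ∀ i, q.coeff i ≠ 0 → -M ≤ ord (q.coeff i)) (Y : Ω × Ω) (hY : Y ≠ 0) :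
    |Real.log ‖bK d (p.map ι) (q.map ι) Y‖ - d * Real.log ‖Y‖| ≤
      (ord (rs d p q) : ℝ) + (2 * d + 1) * M := by
  unfold rs
  obtain ⟨h1, h2⟩ := h
  split_ifs with h3
  · exact bound1 ι ord hι hnat hd ((le_max_left _ _).trans h2.le) h3 h1 M hM hMp hMq Y hY
  · have h4 : p.natDegree = d := by
      rcases max_choice p.natDegree q.natDegree with h5 | h5
      · rw [← h5, h2]
      · exact absurd (h5.symm.trans h2) h3
    have h5 := bound1 ι ord hι hnat hd ((le_max_right _ _).trans h2.le) h4 h1.symm M hM hMq hMp Y hY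
    have h6 : ‖bK d (p.map ι) (q.map ι) Y‖ = ‖bF d (q.map ι) (p.map ι) Y‖ := by
      unfold bK bF
      rw [Prod.norm_def, Prod.norm_def, max_comm]
    rw [h6]
    exact h5

theorem mlt_map (ι : K →+* Ω) (d : ℕ) (p q : K[X]) (m : ℕ) (Z : K × K) (μ : K) :
    mlt d (p.map ι) (q.map ι) m (vm ι Z) (ι μ) = ι (mlt d p q m Z μ) := by
  unfold mlt
  rw [map_div₀, map_pow, map_prod]
  congr 1
  refine Finset.prod_congr rfl fun j _ => ?_
  have h1 : (bK d (p.map ι) (q.map ι))^[j] (vm ι Z) = vm ι ((bK d p q)^[j] Z) :=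
    iter_vm ι d p q j Z
  rw [h1]
  unfold Jv
  have h2 : Wr (p.map ι) (q.map ι) = (Wr p q).map ι := by
    unfold Wr
    simp [Polynomial.derivative_map]
  rw [h2, hev_map]

theorem norm_bounds (ι : K →+* Ω) {d : ℕ} (hd : 1 ≤ d) {p q : K[X]} (h : Rat d p q) {R : ℝ}
    (hR : ∀ Y : Ω × Ω, Y ≠ 0 →
      |Real.log ‖bK d (p.map ι) (q.map ι) Y‖ - d * Real.log ‖Y‖| ≤ R) (Z : Ω × Ω) :
    Real.exp (-R) * ‖Z‖ ^ d ≤ ‖bK d (p.map ι) (q.map ι) Z‖ ∧
      ‖bK d (p.map ι) (q.map ι) Z‖ ≤ Real.exp R * ‖Z‖ ^ d := by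
  by_cases hZ : Z = 0
  · subst hZ
    have h1 : bK d (p.map ι) (q.map ι) (0 : Ω × Ω) = 0 := by
      have h2 := bK_smul d (p.map ι) (q.map ι) 0 (0 : Ω × Ω)
      rw [smul_zero, zero_pow (by omega), zero_smul] at h2
      exact h2
    rw [h1, norm_zero, zero_pow (by omega), mul_zero, mul_zero]
    exact ⟨le_rfl, le_rfl⟩
  · have hZ' : 0 < ‖Z‖ := norm_pos_iff.mpr hZ
    have hF : 0 < ‖bK d (p.map ι) (q.map ι) Z‖ :=
      norm_pos_iff.mpr (bK_ne' hd (map_rat ι h) hZ)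
    have h1 := abs_le.1 (hR Z hZ)
    have h2 : ‖Z‖ ^ d = Real.exp (d * Real.log ‖Z‖) := by
      rw [← Real.log_pow, Real.exp_log (by positivity)]
    rw [h2, ← Real.exp_add, ← Real.exp_add]
    constructor
    · rw [← Real.le_log_iff_exp_le hF]
      linarith [h1.1]
    · rw [← Real.log_le_iff_le_exp hF]
      linarith [h1.2]

end loc

theorem local_key {C₁ : ℝ} (hC : 0 ≤ C₁) {d m : ℕ} (hd : 2 ≤ d)
    (hALM : ∀ (Ω : Type u) [NormedField Ω] [IsUltrametricDist Ω] [IsAlgClosed Ω],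
      (∀ n : ℕ, n ≠ 0 → ‖(n : Ω)‖ = 1) → ∀ p q : Polynomial Ω, Rat d p q → ∀ R : ℝ, 0 ≤ R →
      (∀ Z : Ω × Ω, Real.exp (-R) * ‖Z‖ ^ d ≤ ‖bK d p q Z‖ ∧
        ‖bK d p q Z‖ ≤ Real.exp R * ‖Z‖ ^ d) →
      ∀ (X₀ : Ω × Ω) (μ : Ω), X₀ ≠ 0 → μ ≠ 0 → (bK d p q)^[m] X₀ = μ • X₀ →
      mlt d p q m X₀ μ ≠ 0 → ‖mlt d p q m X₀ μ‖ < 1 → ∀ n : ℕ, 1 ≤ n →
      0 < ((n : ℝ) - 3) * (-Real.log ‖mlt d p q m X₀ μ‖) - C₁ * R →
      ∃ (Y : Ω × Ω) (a : ℕ), Y ≠ 0 ∧ Jv d p q Y = 0 ∧ a < m ∧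
        wd ((bK d p q)^[m * n - a] Y) X₀ ≠ 0 ∧
        Real.log ‖wd ((bK d p q)^[m * n - a] Y) X₀‖ - Real.log ‖(bK d p q)^[m * n - a] Y‖ -
          Real.log ‖X₀‖ ≤ -(((n : ℝ) - 3) * (-Real.log ‖mlt d p q m X₀ μ‖) - C₁ * R))
    {k : Type v} {K : Type u} [Field k] [CharZero k] [Field K] [Algebra k K]
    (Q : PlaceData.{w} k K) (v : Q.Pl) {p q : K[X]} (h : Rat d p q) (M : ℝ) (hM : 0 ≤ M)
    (hMp : ∀ i, p.coeff i ≠ 0 → -M ≤ Q.ord v (p.coeff i))
    (hMq : ∀ i, q.coeff i ≠ 0 → -M ≤ Q.ord v (q.coeff i))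
    {Cr : Fin (2 * d - 2) → K × K} (hCr : Crit d p q Cr) {X₀ : K × K} {μ : K} (hX₀ : X₀ ≠ 0)
    (hμ : μ ≠ 0) (hper : (bK d p q)^[m] X₀ = μ • X₀) {n : ℕ} (hn : 1 ≤ n)
    (hl : mlt d p q m X₀ μ ≠ 0) :
    ((n : ℝ) - 3) * ((max 0 (Q.ord v (mlt d p q m X₀ μ)) : ℤ) : ℝ) ≤
      C₁ * ((Q.ord v (rs d p q) : ℝ) + (2 * d + 1) * M) +
        ∑ i, ∑ a ∈ range m, (Bv Q v ((bK d p q)^[m * n - a] (Cr i)) X₀ : ℝ) := by
  have hB : ∀ i : Fin (2 * d - 2), ∀ a ∈ range m,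
      (0 : ℝ) ≤ (Bv Q v ((bK d p q)^[m * n - a] (Cr i)) X₀ : ℝ) := fun i a _ => by
    exact_mod_cast Bv_nonneg Q v _ _
  have hBB : (0 : ℝ) ≤ ∑ i, ∑ a ∈ range m, (Bv Q v ((bK d p q)^[m * n - a] (Cr i)) X₀ : ℝ) :=
    Finset.sum_nonneg fun i _ => Finset.sum_nonneg fun a ha => hB i a ha
  haveI hchar : CharZero K := charZero_of_injective_algebraMap (algebraMap k K).injective
  have hnatK : ∀ n : ℕ, n ≠ 0 → ((n : K) ≠ 0 ∧ Q.ord v (n : K) = 0) := by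
    intro n hn
    have h1 : (n : K) = algebraMap k K (n : k) := by simp
    have h2 : (n : k) ≠ 0 := Nat.cast_ne_zero.mpr hn
    constructor
    · rw [h1]
      exact (_root_.map_ne_zero _).mpr h2
    · rw [h1]
      exact Q.ord_alg v _ h2
  have hnat : ∀ (Ω : Type u) [NormedField Ω] (ι : K →+* Ω),
      (∀ x : K, x ≠ 0 → ‖ι x‖ = Real.exp (-(Q.ord v x : ℝ))) →
      ∀ n : ℕ, n ≠ 0 → ‖(n : Ω)‖ = 1 := by
    intro Ω _ ι hι n hn
    obtain ⟨h1, h2⟩ := hnatK n hn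
    have h3 := hι (n : K) h1
    rw [h2, map_natCast] at h3
    rw [h3]
    simp
  have hR0 : 0 ≤ (Q.ord v (rs d p q) : ℝ) + (2 * d + 1) * M := by
    by_cases hπ : ∃ π : K, π ≠ 0 ∧ Q.ord v π ≠ 0
    · obtain ⟨π, h1, h2⟩ := hπ
      obtain ⟨Ω, _, _, _, ι, hι⟩ := exists_ext Q v π h1 h2
      exact (abs_nonneg _).trans (bound2 ι (Q.ord v) hι (hnat Ω ι hι) (by omega) h M hM hMp hMq
        ((1, 0) : Ω × Ω) (by
          intro h3
          exact one_ne_zero (congrArg Prod.fst h3)))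
    · push Not at hπ
      rw [hπ _ (rs_ne (by omega) h)]
      positivity
  by_cases hpos : 0 < Q.ord v (mlt d p q m X₀ μ)
  · rw [max_eq_right hpos.le]
    obtain ⟨Ω, _, _, _, ι, hι⟩ := exists_ext Q v _ hl hpos.ne'
    have hnatΩ := hnat Ω ι hι
    have hb := norm_bounds ι (by omega) h
      (bound2 ι (Q.ord v) hι hnatΩ (by omega) h M hM hMp hMq)
    have hml := mlt_map ι d p q m X₀ μ
    have hnl : ‖mlt d (p.map ι) (q.map ι) m (vm ι X₀) (ι μ)‖ =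
        Real.exp (-(Q.ord v (mlt d p q m X₀ μ) : ℝ)) := by
      rw [hml, hι _ hl]
    have hlog : -Real.log ‖mlt d (p.map ι) (q.map ι) m (vm ι X₀) (ι μ)‖ =
        (Q.ord v (mlt d p q m X₀ μ) : ℝ) := by
      rw [hnl, Real.log_exp, neg_neg]
    by_cases hbig : 0 < ((n : ℝ) - 3) * (Q.ord v (mlt d p q m X₀ μ) : ℝ) -
        C₁ * ((Q.ord v (rs d p q) : ℝ) + (2 * d + 1) * M)
    · obtain ⟨Y, a, hY, hJ, ha, hw, hle⟩ := hALM Ω hnatΩ (p.map ι) (q.map ι) (map_rat ι h) _ hR0 hb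
        (vm ι X₀) (ι μ) (vm_ne ι hX₀) ((_root_.map_ne_zero ι).mpr hμ) (by
          have h1 : (bK d (p.map ι) (q.map ι))^[m] (vm ι X₀) = vm ι ((bK d p q)^[m] X₀) :=
            iter_vm ι d p q m X₀
          rw [h1, hper, vm_smul]) (by
          rw [hml]
          exact (_root_.map_ne_zero ι).mpr hl) (by
          rw [hnl]
          have : (0 : ℝ) < Q.ord v (mlt d p q m X₀ μ) := by exact_mod_cast hpos
          exact Real.exp_lt_one_iff.mpr (by linarith)) n hn (by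
          rw [hlog]
          exact hbig)
      rw [hlog] at hle
      haveI : CharZero Ω := charZero_of_injective_ringHom ι.injective
      rw [Jv_prod (crit_map ι hCr), Finset.prod_eq_zero_iff] at hJ
      obtain ⟨i, -, hi⟩ := hJ
      obtain ⟨c, hc, rfl⟩ := prop_of_wd hY (vm_ne ι (hCr.1 i)) hi
      have h1 : (bK d (p.map ι) (q.map ι))^[m * n - a] (vm ι (Cr i)) =
          vm ι ((bK d p q)^[m * n - a] (Cr i)) := iter_vm ι d p q (m * n - a) (Cr i)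
      have hZ0 := iter_ne (by omega) h (hCr.1 i) (m * n - a)
      rw [iter_smul, h1] at hw hle
      have hkey : ((n : ℝ) - 3) * (Q.ord v (mlt d p q m X₀ μ) : ℝ) -
          C₁ * ((Q.ord v (rs d p q) : ℝ) + (2 * d + 1) * M) ≤
          (Bv Q v ((bK d p q)^[m * n - a] (Cr i)) X₀ : ℝ) := by
        generalize (bK d p q)^[m * n - a] (Cr i) = Z at hZ0 hw hle ⊢
        rw [wd_smul_left, vm_wd] at hw hle
        have hc' : c ^ d ^ (m * n - a) ≠ 0 := pow_ne_zero _ hc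
        have hwd : wd Z X₀ ≠ 0 := by
          intro h3
          rw [h3, map_zero, mul_zero] at hw
          exact hw rfl
        have hn1 : ‖c ^ d ^ (m * n - a)‖ ≠ 0 := norm_ne_zero_iff.2 hc'
        have hn2 : ‖ι (wd Z X₀)‖ ≠ 0 := norm_ne_zero_iff.2 ((_root_.map_ne_zero ι).mpr hwd)
        have hn3 : ‖vm ι Z‖ ≠ 0 := norm_ne_zero_iff.2 (vm_ne ι hZ0)
        rw [norm_mul, norm_smul, Real.log_mul hn1 hn2, Real.log_mul hn1 hn3,
          log_vm ι (Q.ord v) hι hZ0, log_vm ι (Q.ord v) hι hX₀, hι _ hwd, Real.log_exp] at hle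
        unfold Bv
        rw [if_neg hwd]
        push_cast
        linarith
      have h2 := Finset.single_le_sum (hB i) (Finset.mem_range.2 ha)
      have h3 := Finset.single_le_sum (fun i _ => Finset.sum_nonneg (hB i)) (Finset.mem_univ i)
      linarith
    · linarith
  · rw [max_eq_left (not_lt.1 hpos), Int.cast_zero, mul_zero]
    have := mul_nonneg hC hR0
    linarith

end Pool.Agent.Q176.OP
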